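import Mathlib

set_option autoImplicit false

namespace Pool.Agent.MP_640286_co.H93

/-- A blow-up of `H`: a finite graph `G` whose vertices are split by `cl` into nonempty clusters,
one for each vertex of `H`, all edges running between clusters of adjacent vertices of `H`. -/
structure BlowUp {V : Type} (H : SimpleGraph V) where
  m : ℕ
  cl : Fin m → V
  surj : Function.Surjective cl
  G : SimpleGraph (Fin m)
  hom : ∀ x y, G.Adj x y → H.Adj (cl x) (cl y)

/-- The edge density between the clusters of `i` and `j`. -/
noncomputable def BlowUp.density {V : Type} {H : SimpleGraph V} (B : BlowUp H) (i j : V) : ℝ :=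
  (Nat.card {p : Fin B.m × Fin B.m // B.cl p.1 = i ∧ B.cl p.2 = j ∧ B.G.Adj p.1 p.2} : ℝ) /
    ((Nat.card {x : Fin B.m // B.cl x = i} : ℝ) * (Nat.card {x : Fin B.m // B.cl x = j} : ℝ))

/-- The blow-up contains `H` as a transversal. -/
def BlowUp.HasTransversal {V : Type} {H : SimpleGraph V} (B : BlowUp H) : Prop :=
  ∃ a : V → Fin B.m, (∀ i, B.cl (a i) = i) ∧ ∀ i j, H.Adj i j → B.G.Adj (a i) (a j)

/-- The two properties defining the critical edge density. -/
def IsCritDensity {V : Type} (H : SimpleGraph V) (d : ℝ) : Prop :=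
  (∀ B : BlowUp H, (∀ i j, H.Adj i j → d < B.density i j) → B.HasTransversal) ∧
    ∀ d' : ℝ, d' < d → ∃ B : BlowUp H, (∀ i j, H.Adj i j → d' < B.density i j) ∧ ¬ B.HasTransversal

/-- Every initial segment of the labeling spans a connected induced subgraph. -/
def IsProper {n : ℕ} (H : SimpleGraph (Fin n)) (f : Fin n ≃ Fin n) : Prop :=
  ∀ k : Fin n, (H.induce (f '' Set.Iic k)).Connected

/-- Paths of `H`, as lists of vertices, that start at the vertex with the first label and along
which the labels increase. -/
def MonoPath {n : ℕ} (H : SimpleGraph (Fin (n + 1))) (f : Fin (n + 1) ≃ Fin (n + 1)) : Type :=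
  {l : List (Fin (n + 1)) //
    l.head? = some (f 0) ∧ l.IsChain fun a b => f.symm a < f.symm b ∧ H.Adj a b}

instance {n : ℕ} (H : SimpleGraph (Fin (n + 1))) (f : Fin (n + 1) ≃ Fin (n + 1)) :
    Finite (MonoPath H f) := by
  refine Finite.of_injective
    (fun l : MonoPath H f => (⟨l.1, ?_⟩ : {l : List (Fin (n + 1)) // l.Nodup})) ?_
  · have h1 : l.1.IsChain fun a b => f.symm a < f.symm b := l.2.2.imp fun _ _ h => h.1
    have : Trans (fun a b => f.symm a < f.symm b) (fun a b => f.symm a < f.symm b)
      (fun a b => f.symm a < f.symm b) := ⟨fun h1 h2 => lt_trans h1 h2⟩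
    rw [List.isChain_iff_pairwise] at h1
    exact h1.imp fun h he => by rw [he] at h; exact lt_irrefl _ h
  · intro l l' h
    exact Subtype.ext (Subtype.mk.inj h)

/-- The monotone-path tree: two paths are adjacent when one arises from the other by adding one
vertex at its end. -/
def pathTree {n : ℕ} (H : SimpleGraph (Fin (n + 1))) (f : Fin (n + 1) ≃ Fin (n + 1)) :
    SimpleGraph (MonoPath H f) :=
  SimpleGraph.fromRel fun l l' => ∃ v, l'.1 = l.1 ++ [v]

open Classical in
/-- The set of eigenvalues of the adjacency matrix of a finite graph. -/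
noncomputable def adjSpectrum {W : Type} [Finite W] (T : SimpleGraph W) : Set ℝ :=
  letI := Fintype.ofFinite W
  spectrum ℝ (T.adjMatrix ℝ)

end Pool.Agent.MP_640286_co.H93
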