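import Pool.Agent.MP_640286_co.H93.Defs
import Pool.Agent.MP_640286_co.H32.Bound
import Pool.Agent.MP_640286_co.H32.Blow

set_option autoImplicit false

open Classical

namespace Pool.Agent.MP_640286_co.H93

/-- A positive supersolution bounds the top eigenvalue, which is positive when there is an edge. -/
theorem top_eigenvalue {W : Type} [Finite W] (T : SimpleGraph W) (y : W → ℝ) (lam : ℝ)
    (hy : ∀ w, 0 < y w) {a b : W} (hab : T.Adj a b)
    (hsup : ∀ (w : W) (s : Finset W), (∀ u ∈ s, T.Adj w u) → ∑ u ∈ s, y u ≤ lam * y w) :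
    ∃ μ : ℝ, IsGreatest (adjSpectrum T) μ ∧ 0 < μ ∧ μ ≤ lam := by
  let _ := Fintype.ofFinite W
  have hA : (T.adjMatrix ℝ).IsHermitian := T.isHermitian_adjMatrix ℝ
  have hsp : adjSpectrum T = Set.range hA.eigenvalues := hA.spectrum_real_eq_range_eigenvalues
  obtain ⟨i, -, hi⟩ := Finset.exists_max_image Finset.univ hA.eigenvalues ⟨a, Finset.mem_univ a⟩
  refine ⟨hA.eigenvalues i, ⟨hsp ▸ ⟨i, rfl⟩, ?_⟩, ?_, ?_⟩
  · rw [hsp]
    rintro _ ⟨j, rfl⟩
    exact hi j (Finset.mem_univ j)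
  · by_contra hcon
    have h1 : ∀ j ∈ (Finset.univ : Finset W), hA.eigenvalues j ≤ 0 := fun j hj =>
      (hi j hj).trans (not_lt.1 hcon)
    have h2 := hA.trace_eq_sum_eigenvalues
    rw [SimpleGraph.trace_adjMatrix] at h2
    have h3 : ∑ j, hA.eigenvalues j = 0 := by simpa using h2.symm
    have h4 : hA.eigenvalues = 0 :=
      funext fun j => (Finset.sum_eq_zero_iff_of_nonpos h1).1 h3 j (Finset.mem_univ j)
    have h5 := congrFun (congrFun (hA.eigenvalues_eq_zero_iff.1 h4) a) b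
    simp [hab] at h5
  · set x : W → ℝ := ⇑(hA.eigenvectorBasis i) with hx
    have hx0 : x ≠ 0 := (WithLp.ofLp_eq_zero 2).ne.2 (hA.eigenvectorBasis.orthonormal.ne_zero i)
    have hev := hA.mulVec_eigenvectorBasis i
    rw [← hx] at hev
    obtain ⟨v, -, hv⟩ := Finset.exists_max_image Finset.univ (fun w => |x w| / y w)
      ⟨a, Finset.mem_univ a⟩
    have hle : ∀ w, |x w| ≤ |x v| / y v * y w := fun w =>
      (div_le_iff₀ (hy w)).1 (hv w (Finset.mem_univ w))
    have hv0 : 0 < |x v| := by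
      obtain ⟨w, hw⟩ := Function.ne_iff.1 hx0
      by_contra hcon
      have h1 : |x v| = 0 := le_antisymm (not_lt.1 hcon) (abs_nonneg _)
      have h2 := hle w
      rw [h1, zero_div, zero_mul] at h2
      exact hw (abs_nonpos_iff.1 h2)
    have h1 := congrFun hev v
    rw [SimpleGraph.adjMatrix_mulVec_apply, Pi.smul_apply, smul_eq_mul] at h1
    have h2 : |hA.eigenvalues i| * |x v| ≤ lam * |x v| := by
      rw [← abs_mul, ← h1]
      refine (Finset.abs_sum_le_sum_abs _ _).trans ?_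
      refine (Finset.sum_le_sum fun w _ => hle w).trans ?_
      rw [← Finset.mul_sum]
      have h3 := hsup v (T.neighborFinset v) fun u hu => (SimpleGraph.mem_neighborFinset _ _ _).1 hu
      have h4 : 0 ≤ |x v| / y v := div_nonneg (abs_nonneg _) (hy v).le
      refine (mul_le_mul_of_nonneg_left h3 h4).trans (le_of_eq ?_)
      have := (hy v).ne'
      field_simp
    exact (le_abs_self _).trans (le_of_mul_le_mul_right h2 hv0)

theorem tree_bound {n : ℕ} (H : SimpleGraph (Fin (n + 2))) (f : Fin (n + 2) ≃ Fin (n + 2))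
    (lam : ℝ) (h01 : H.Adj (f 0) (f 1)) (t : Fin (n + 2) → ℝ) (ht : ∀ a, 0 < t a)
    (h0 : ∑ b, (if ((0 : Fin (n + 2)) < b ∧ H.Adj (f 0) (f b)) then t b else 0) ≤ lam)
    (h1 : ∀ a, a ≠ 0 →
      1 / t a + ∑ b, (if (a < b ∧ H.Adj (f a) (f b)) then t b else 0) ≤ lam) :
    ∃ μ : ℝ, IsGreatest (adjSpectrum (pathTree H f)) μ ∧ 0 < μ ∧ μ ≤ lam := by
  let y : MonoPath H f → ℝ := fun l => (l.1.map fun v => t (f.symm v)).prod
  have hy : ∀ l, 0 < y l := fun l => List.prod_pos fun r hr => by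
    obtain ⟨v, -, rfl⟩ := List.mem_map.1 hr
    exact ht _
  have hyc : ∀ (l l' : MonoPath H f) (v : Fin (n + 2)), l'.1 = l.1 ++ [v] →
      y l' = y l * t (f.symm v) := by
    intro l l' v h
    simp [y, h]
  have hne : ∀ l : MonoPath H f, l.1 ≠ [] := by
    intro l h
    have := l.2.1
    rw [h] at this
    simp at this
  have hch : ∀ (l l' : MonoPath H f) (v : Fin (n + 2)), l'.1 = l.1 ++ [v] →
      f.symm (l.1.getLast (hne l)) < f.symm v ∧ H.Adj (l.1.getLast (hne l)) v := by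
    intro l l' v h
    have h2 := l'.2.2
    rw [h, List.isChain_append] at h2
    exact h2.2.2 _ (by rw [List.getLast?_eq_some_getLast (hne l)]; rfl) v rfl
  let p0 : MonoPath H f := ⟨[f 0], rfl, List.isChain_singleton _⟩
  let p1 : MonoPath H f := ⟨[f 0, f 1], rfl, by simp [h01]⟩
  have hadj : (pathTree H f).Adj p0 p1 := by
    rw [pathTree, SimpleGraph.fromRel_adj]
    refine ⟨fun h => ?_, Or.inl ⟨f 1, rfl⟩⟩
    have := congrArg (fun l : MonoPath H f => l.1.length) h
    simp [p0, p1] at this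
  refine top_eigenvalue (pathTree H f) y lam hy hadj ?_
  intro w s hs
  set a := f.symm (w.1.getLast (hne w)) with ha
  rw [← Finset.sum_filter_add_sum_filter_not s fun u => ∃ v, u.1 = w.1 ++ [v]]
  have c1 : ∑ u ∈ s.filter (fun u => ∃ v, u.1 = w.1 ++ [v]), y u
      ≤ (∑ b, (if (a < b ∧ H.Adj (f a) (f b)) then t b else 0)) * y w := by
    rw [← Finset.sum_filter, Finset.sum_mul]
    have hinj : Set.InjOn (fun u : MonoPath H f => f.symm (u.1.getLast (hne u)))
        (s.filter (fun u => ∃ v, u.1 = w.1 ++ [v]) : Finset (MonoPath H f)) := by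
      intro u hu u' hu' he
      obtain ⟨v, hv⟩ := (Finset.mem_filter.1 hu).2
      obtain ⟨v', hv'⟩ := (Finset.mem_filter.1 hu').2
      have e1 : u.1.getLast (hne u) = v := by simp [hv]
      have e2 : u'.1.getLast (hne u') = v' := by simp [hv']
      have e3 : v = v' := by rw [← e1, ← e2]; exact f.symm.injective he
      exact Subtype.ext (by rw [hv, hv', e3])
    have e0 : ∑ u ∈ s.filter (fun u => ∃ v, u.1 = w.1 ++ [v]), y u
        = ∑ u ∈ s.filter (fun u => ∃ v, u.1 = w.1 ++ [v]),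
          t (f.symm (u.1.getLast (hne u))) * y w := by
      refine Finset.sum_congr rfl fun u hu => ?_
      obtain ⟨v, hv⟩ := (Finset.mem_filter.1 hu).2
      have e1 : u.1.getLast (hne u) = v := by simp [hv]
      rw [hyc w u v hv, e1, mul_comm]
    rw [e0, ← Finset.sum_image (f := fun b => t b * y w) hinj]
    refine Finset.sum_le_sum_of_subset_of_nonneg ?_ fun b _ _ => (mul_pos (ht b) (hy w)).le
    intro b hb
    obtain ⟨u, hu, rfl⟩ := Finset.mem_image.1 hb
    obtain ⟨v, hv⟩ := (Finset.mem_filter.1 hu).2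
    have e1 : u.1.getLast (hne u) = v := by simp [hv]
    rw [Finset.mem_filter, e1, ha, Equiv.apply_symm_apply, Equiv.apply_symm_apply]
    exact ⟨Finset.mem_univ _, hch w u v hv⟩
  have hpar : ∀ u ∈ s.filter (fun u => ¬ ∃ v, u.1 = w.1 ++ [v]),
      w.1 = u.1 ++ [w.1.getLast (hne w)] := by
    intro u hu
    obtain ⟨hu1, hu2⟩ := Finset.mem_filter.1 hu
    have h2 := hs u hu1
    rw [pathTree, SimpleGraph.fromRel_adj] at h2
    obtain ⟨v, hv⟩ := h2.2.resolve_left hu2
    have e1 : w.1.getLast (hne w) = v := by simp [hv]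
    rw [e1]
    exact hv
  have c2 : ∑ u ∈ s.filter (fun u => ¬ ∃ v, u.1 = w.1 ++ [v]), y u
      ≤ (if a = 0 then 0 else 1 / t a) * y w := by
    rcases (s.filter (fun u => ¬ ∃ v, u.1 = w.1 ++ [v])).eq_empty_or_nonempty with he | ⟨u, hu⟩
    · rw [he, Finset.sum_empty]
      have := ht a
      have := hy w
      split_ifs <;> positivity
    · have h2 : s.filter (fun u => ¬ ∃ v, u.1 = w.1 ++ [v]) = {u} := by
        refine Finset.eq_singleton_iff_unique_mem.2 ⟨hu, fun u' hu' => Subtype.ext ?_⟩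
        exact List.append_cancel_right ((hpar u' hu').symm.trans (hpar u hu))
      have h3 := (hch u w _ (hpar u hu)).1
      have h4 : a ≠ 0 := (lt_of_le_of_lt (Fin.zero_le _) h3).ne'
      rw [h2, Finset.sum_singleton, if_neg h4, hyc u w _ (hpar u hu), ← ha]
      have := (ht a).ne'
      apply le_of_eq
      field_simp
  refine (add_le_add c1 c2).trans ?_
  rw [← add_mul]
  refine mul_le_mul_of_nonneg_right ?_ (hy w).le
  by_cases hz : a = 0
  · rw [if_pos hz, hz, add_zero]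
    exact h0
  · rw [if_neg hz, add_comm]
    exact h1 a hz

theorem density_le_one {V : Type} {H : SimpleGraph V} (B : BlowUp H) (i j : V) :
    B.density i j ≤ 1 := by
  refine div_le_one_of_le₀ ?_ (by positivity)
  rw [← Nat.cast_mul, ← Nat.card_prod, Nat.cast_le]
  refine Nat.card_le_card_of_injective
    (fun p => (⟨p.1.1, p.2.1⟩, ⟨p.1.2, p.2.2.1⟩)) ?_
  intro p q h
  simp only [Prod.mk.injEq, Subtype.mk.injEq] at h
  exact Subtype.ext (Prod.ext h.1 h.2)

theorem exists_crit {V : Type} [Finite V] (H : SimpleGraph V) {a b : V} (hab : H.Adj a b) (c : ℝ)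
    (B : BlowUp H) (hB : ∀ i j, H.Adj i j → B.density i j = c) (hT : ¬ B.HasTransversal) :
    ∃ d, IsCritDensity H d ∧ c ≤ d := by
  let _ := Fintype.ofFinite V
  set S : Set ℝ := {d | ∀ B : BlowUp H, (∀ i j, H.Adj i j → d < B.density i j) → B.HasTransversal}
    with hS
  have hne : S.Nonempty := ⟨1, fun B' h => absurd (h a b hab) (not_lt.2 (density_le_one B' a b))⟩
  have hlb : ∀ d ∈ S, c ≤ d := by
    intro d hd
    by_contra hcon
    exact hT (hd B fun i j hij => by rw [hB i j hij]; exact not_le.1 hcon)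
  refine ⟨sInf S, ⟨fun B' h => ?_, fun d' hd' => ?_⟩, le_csInf hne hlb⟩
  · obtain ⟨p, hp, hmin⟩ := Finset.exists_min_image
      (Finset.univ.filter fun p : V × V => H.Adj p.1 p.2) (fun p => B'.density p.1 p.2)
      ⟨(a, b), by simpa using hab⟩
    obtain ⟨d', hd', hlt⟩ := exists_lt_of_csInf_lt hne (h p.1 p.2 (Finset.mem_filter.1 hp).2)
    exact hd' B' fun i j hij => hlt.trans_le (hmin (i, j) (by simpa using hij))
  · have h := notMem_of_lt_csInf hd' ⟨c, hlb⟩
    simp only [hS, Set.mem_ofPred_eq, not_forall] at h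
    obtain ⟨B', h1, h2⟩ := h
    exact ⟨B', h1, h2⟩

theorem crit_unique {V : Type} {H : SimpleGraph V} {d d' : ℝ} (h : IsCritDensity H d)
    (h' : IsCritDensity H d') : d' = d := by
  by_contra hne
  rcases lt_or_gt_of_ne hne with hlt | hlt
  · obtain ⟨B, h1, h2⟩ := h.2 d' hlt
    exact h2 (h'.1 B h1)
  · obtain ⟨B, h1, h2⟩ := h'.2 d hlt
    exact h2 (h.1 B h1)

theorem H_near' : ∀ v : Fin 45, v = 0 ∨ H32.H.Adj 0 v ∨
    ∃ u, u ≤ v ∧ H32.H.Adj 0 u ∧ H32.H.Adj u v := by
  decide +kernel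

theorem refl_proper : IsProper H32.H (Equiv.refl _) := by
  intro k
  have h0 : (0 : Fin 45) ∈ (Equiv.refl (Fin 45)) '' Set.Iic k := ⟨0, Fin.zero_le k, rfl⟩
  rw [SimpleGraph.connected_iff_exists_forall_reachable]
  refine ⟨⟨0, h0⟩, ?_⟩
  rintro ⟨v, w, hw, rfl⟩
  rcases H_near' w with rfl | h | ⟨u, hu, h1, h2⟩
  · rfl
  · exact SimpleGraph.Adj.reachable h
  · have hu' : u ∈ (Equiv.refl (Fin 45)) '' Set.Iic k := ⟨u, hu.trans hw, rfl⟩
    have a1 : (H32.H.induce ((Equiv.refl (Fin 45)) '' Set.Iic k)).Adj ⟨0, h0⟩ ⟨u, hu'⟩ := h1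
    have a2 : (H32.H.induce ((Equiv.refl (Fin 45)) '' Set.Iic k)).Adj ⟨u, hu'⟩
      ⟨_, ⟨w, hw, rfl⟩⟩ := h2
    exact a1.reachable.trans a2.reachable

theorem all_trees (f : Fin 45 ≃ Fin 45) (hf : IsProper H32.H f) :
    ∃ μ : ℝ, IsGreatest (adjSpectrum (pathTree H32.H f)) μ ∧ 0 < μ ∧ μ ≤ 3999 / 1000 := by
  have hf' : ∀ k : Fin 45, (H32.H.induce {v | f.symm v ≤ k}).Connected := by
    intro k
    have e : {v | f.symm v ≤ k} = f '' Set.Iic k := by
      rw [Equiv.image_eq_preimage_symm]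
      rfl
    rw [e]
    exact hf k
  have h01 : H32.H.Adj (f 0) (f 1) := by
    obtain ⟨u, hu1, hu2⟩ := H32.earlier_nbr H32.H f hf' (f 1) (by simp)
    have : f.symm u = 0 := by
      rw [Equiv.symm_apply_apply, Fin.lt_def] at hu2
      apply Fin.ext
      have : ((1 : Fin 45) : ℕ) = 1 := rfl
      have : ((0 : Fin 45) : ℕ) = 0 := rfl
      omega
    rw [Equiv.symm_apply_eq] at this
    rw [← this]; exact hu1
  obtain ⟨t, h1, h2, h3⟩ := H32.exists_cert f hf'
  refine tree_bound (n := 43) H32.H f _ h01 t h1 ?_ fun a ha => ?_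
  · convert h2
  · convert h3 a ha

end Pool.Agent.MP_640286_co.H93
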